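import Mathlib

namespace Pool.Agent.Lib.MP_4f615a_lc

universe u

/-- Modal formulas built from literals `p`, `¬p` (variables are natural numbers),
`⊥`, `⊤`, `∧`, `∨`, `◇`, `□`. -/
inductive Fm : Type
  | pos : ℕ → Fm
  | npos : ℕ → Fm
  | bot : Fm
  | top : Fm
  | and : Fm → Fm → Fm
  | or : Fm → Fm → Fm
  | dia : Fm → Fm
  | box : Fm → Fm

/-- Negation, by the De Morgan and modal duality laws. -/
def Fm.neg : Fm → Fm
  | .pos n => .npos n
  | .npos n => .pos n
  | .bot => .top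
  | .top => .bot
  | .and a b => .or a.neg b.neg
  | .or a b => .and a.neg b.neg
  | .dia a => .box a.neg
  | .box a => .dia a.neg

/-- The biconditional `a ↔ b`, i.e. `(¬a ∨ b) ∧ (¬b ∨ a)`. -/
def Fm.iff (a b : Fm) : Fm := .and (.or a.neg b) (.or b.neg a)

/-- The variables occurring in a formula. -/
def Fm.vars : Fm → Finset ℕ
  | .pos n => {n}
  | .npos n => {n}
  | .bot => ∅
  | .top => ∅
  | .and a b => a.vars ∪ b.vars
  | .or a b => a.vars ∪ b.vars
  | .dia a => a.vars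
  | .box a => a.vars

/-- `Positive P φ`: no literal `¬p` with `p ∈ P` occurs in `φ`. -/
def Positive (P : Finset ℕ) : Fm → Prop
  | .pos _ => True
  | .npos n => n ∉ P
  | .bot => True
  | .top => True
  | .and a b => Positive P a ∧ Positive P b
  | .or a b => Positive P a ∧ Positive P b
  | .dia a => Positive P a
  | .box a => Positive P a

/-- A modal algebra structure on a Boolean algebra: an operator `□` preserving `⊤` and `⊓`. -/
structure ModalAlg (A : Type u) [BooleanAlgebra A] where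
  nec : A → A
  nec_top : nec ⊤ = ⊤
  nec_inf : ∀ a b, nec (a ⊓ b) = nec a ⊓ nec b

/-- The value of a formula in a modal algebra under a valuation; `◇a = (□aᶜ)ᶜ`. -/
def ModalAlg.val {A : Type u} [BooleanAlgebra A] (M : ModalAlg A) (θ : ℕ → A) : Fm → A
  | .pos n => θ n
  | .npos n => (θ n)ᶜ
  | .bot => ⊥
  | .top => ⊤
  | .and a b => M.val θ a ⊓ M.val θ b
  | .or a b => M.val θ a ⊔ M.val θ b
  | .dia a => (M.nec (M.val θ a)ᶜ)ᶜ
  | .box a => M.nec (M.val θ a)

/-- The modal algebra validates every formula of `Λ`. -/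
def ModalAlg.Validates {A : Type u} [BooleanAlgebra A] (M : ModalAlg A) (Λ : Set Fm) : Prop :=
  ∀ φ ∈ Λ, ∀ θ : ℕ → A, M.val θ φ = ⊤

/-- `φ` is `P`-monotone in `Λ`. -/
def MonotoneIn (Λ : Set Fm) (P : Finset ℕ) (φ : Fm) : Prop :=
  ∀ (A : Type u) [BooleanAlgebra A] (M : ModalAlg A), M.Validates Λ →
    ∀ θ₁ θ₂ : ℕ → A, (∀ n ∉ P, θ₁ n = θ₂ n) → (∀ n ∈ P, θ₁ n ≤ θ₂ n) →
      M.val θ₁ φ ≤ M.val θ₂ φ

/-- The Lyndon positivity property. -/
def LPP (Λ : Set Fm) : Prop :=
  ∀ P R : Finset ℕ, Disjoint P R → ∀ φ : Fm, φ.vars ⊆ P ∪ R → MonotoneIn.{u} Λ P φ →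
    ∃ α : Fm, α.vars ⊆ P ∪ R ∧ Positive P α ∧ φ.iff α ∈ Λ

/-- Kripke truth at a point of the frame `(W, r)` under the valuation `V`. -/
def Sat {W : Type} (r : W → W → Prop) (V : ℕ → W → Prop) : Fm → W → Prop
  | .pos n, w => V n w
  | .npos n, w => ¬ V n w
  | .bot, _ => False
  | .top, _ => True
  | .and a b, w => Sat r V a w ∧ Sat r V b w
  | .or a b, w => Sat r V a w ∨ Sat r V b w
  | .dia a, w => ∃ v, r w v ∧ Sat r V a v
  | .box a, w => ∀ v, r w v → Sat r V a v

/-- GL.3, the logic of all finite strict linear orders. -/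
def GL3 : Set Fm :=
  {φ | ∀ (W : Type) [Finite W] [LinearOrder W] (V : ℕ → W → Prop) (w : W),
    Sat (fun x y => x < y) V φ w}

/-- Grz.3, the logic of all finite reflexive linear orders. -/
def Grz3 : Set Fm :=
  {φ | ∀ (W : Type) [Finite W] [LinearOrder W] (V : ℕ → W → Prop) (w : W),
    Sat (fun x y => x ≤ y) V φ w}

end Pool.Agent.Lib.MP_4f615a_lc
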