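import Pool.Agent.Lib.MP_4f615a_lc.Defs

namespace Pool.Agent.Lib.MP_4f615a_lc

universe u

theorem val_neg {A : Type u} [BooleanAlgebra A] (M : ModalAlg A) (θ : ℕ → A) (a : Fm) :
    M.val θ a.neg = (M.val θ a)ᶜ := by
  induction a with
  | pos n => simp [Fm.neg, ModalAlg.val]
  | npos n => simp [Fm.neg, ModalAlg.val]
  | bot => simp [Fm.neg, ModalAlg.val]
  | top => simp [Fm.neg, ModalAlg.val]
  | and a b iha ihb => simp [Fm.neg, ModalAlg.val, iha, ihb]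
  | or a b iha ihb => simp [Fm.neg, ModalAlg.val, iha, ihb]
  | dia a ih => simp [Fm.neg, ModalAlg.val, ih]
  | box a ih => simp [Fm.neg, ModalAlg.val, ih]

theorem sat_neg {W : Type} (r : W → W → Prop) (V : ℕ → W → Prop) (a : Fm) (w : W) :
    Sat r V a.neg w ↔ ¬ Sat r V a w := by
  induction a generalizing w with
  | pos n => simp [Fm.neg, Sat]
  | npos n => simp [Fm.neg, Sat]
  | bot => simp [Fm.neg, Sat]
  | top => simp [Fm.neg, Sat]
  | and a b iha ihb => simp only [Fm.neg, Sat, iha, ihb]; tauto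
  | or a b iha ihb => simp only [Fm.neg, Sat, iha, ihb]; tauto
  | dia a ih => simp [Fm.neg, Sat, ih]
  | box a ih => simp [Fm.neg, Sat, ih]

/-- `◇(a ∧ ◇(b ∧ ◇a)) ∨ (◇a ∧ □(a ∨ c ∨ (b ∧ □¬a)))`. -/
def phi (a b c : Fm) : Fm :=
  .or (.dia (.and a (.dia (.and b (.dia a)))))
    (.and (.dia a) (.box (.or a (.or c (.and b (.box a.neg))))))

def phi0 : Fm := phi (.pos 0) (.pos 1) (.pos 2)

def psi : Fm :=
  .or phi0.neg (phi (.or (.pos 0) (.pos 3)) (.or (.pos 1) (.pos 4)) (.or (.pos 2) (.pos 5)))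

theorem sat_psi {W : Type} (r : W → W → Prop)
    (hr : ∀ w x y, r w x → r w y → r x y ∨ x = y ∨ r y x) (V : ℕ → W → Prop) (w : W) :
    Sat r V psi w := by
  unfold psi
  simp only [Sat, sat_neg]
  by_cases h : Sat r V phi0 w
  swap
  · exact Or.inl h
  right
  simp only [phi0, phi, Sat, sat_neg] at h ⊢
  rcases h with ⟨x, hx, h0, y, hy, h1, z, hz, h2⟩ | ⟨⟨x, hx, h0⟩, hb⟩
  · exact Or.inl ⟨x, hx, Or.inl h0, y, hy, Or.inl h1, z, hz, Or.inl h2⟩
  · by_cases hc : ∀ v, r w v → (V 0 v ∨ V 3 v) ∨ (V 2 v ∨ V 5 v) ∨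
        ((V 1 v ∨ V 4 v) ∧ ∀ z, r v z → ¬ (V 0 z ∨ V 3 z))
    · exact Or.inr ⟨⟨x, hx, Or.inl h0⟩, hc⟩
    · left
      push Not at hc
      obtain ⟨y, hy, hy0, hy2, hy1⟩ := hc
      rcases hb y hy with h | h | ⟨h1, hn⟩
      · exact absurd h hy0.1
      · exact absurd h hy2.1
      · obtain ⟨z, hz, hz0⟩ := hy1 (Or.inl h1)
        rcases hr w x y hx hy with h | h | h
        · exact ⟨x, hx, Or.inl h0, y, h, Or.inl h1, z, hz, hz0⟩
        · exact absurd (h ▸ h0) hy0.1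
        · exact absurd h0 (hn x h)

theorem mono_of_psi (Λ : Set Fm) (h : psi ∈ Λ) : MonotoneIn.{u} Λ {0, 1, 2} phi0 := by
  intro A _ M hM θ₁ θ₂ _ hle
  have h0 : θ₁ 0 ⊔ θ₂ 0 = θ₂ 0 := sup_eq_right.2 (hle 0 (by simp))
  have h1 : θ₁ 1 ⊔ θ₂ 1 = θ₂ 1 := sup_eq_right.2 (hle 1 (by simp))
  have h2 : θ₁ 2 ⊔ θ₂ 2 = θ₂ 2 := sup_eq_right.2 (hle 2 (by simp))
  have := hM psi h (fun n => if n < 3 then θ₁ n else θ₂ (n - 3))
  simp only [psi, ModalAlg.val, val_neg] at this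
  rw [sup_comm, ← himp_eq, himp_eq_top_iff] at this
  simp only [phi0, phi, ModalAlg.val, val_neg] at this ⊢
  norm_num at this
  simp only [← compl_sup, h0, h1, h2] at this
  simpa using this

/-- Modal depth. -/
def depth : Fm → ℕ
  | .pos _ => 0
  | .npos _ => 0
  | .bot => 0
  | .top => 0
  | .and a b => max (depth a) (depth b)
  | .or a b => max (depth a) (depth b)
  | .dia a => depth a + 1
  | .box a => depth a + 1

theorem preserve {W₁ W₂ : Type} (r₁ : W₁ → W₁ → Prop) (r₂ : W₂ → W₂ → Prop)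
    (V₁ : ℕ → W₁ → Prop) (V₂ : ℕ → W₂ → Prop) (Z : ℕ → W₁ → W₂ → Prop)
    (hat : ∀ k x y, Z k x y → ∀ n, V₁ n x → V₂ n y)
    (hf : ∀ k x y, Z (k + 1) x y → ∀ x', r₁ x x' → ∃ y', r₂ y y' ∧ Z k x' y')
    (hb : ∀ k x y, Z (k + 1) x y → ∀ y', r₂ y y' → ∃ x', r₁ x x' ∧ Z k x' y')
    (P : Finset ℕ) (α : Fm) (hv : α.vars ⊆ P) (hp : Positive P α) :
    ∀ k x y, depth α ≤ k → Z k x y → Sat r₁ V₁ α x → Sat r₂ V₂ α y := by
  induction α with
  | pos n => intro k x y _ hz h; exact hat k x y hz n h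
  | npos n => exact absurd (hv (by simp [Fm.vars])) hp
  | bot => intro k x y _ _ h; exact h
  | top => intro k x y _ _ h; exact h
  | and a b iha ihb =>
    intro k x y hd hz h
    simp only [Fm.vars, Finset.union_subset_iff] at hv
    simp only [depth, max_le_iff] at hd
    exact ⟨iha hv.1 hp.1 k x y hd.1 hz h.1, ihb hv.2 hp.2 k x y hd.2 hz h.2⟩
  | or a b iha ihb =>
    intro k x y hd hz h
    simp only [Fm.vars, Finset.union_subset_iff] at hv
    simp only [depth, max_le_iff] at hd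
    exact h.imp (iha hv.1 hp.1 k x y hd.1 hz) (ihb hv.2 hp.2 k x y hd.2 hz)
  | dia a ih =>
    intro k x y hd hz h
    simp only [depth] at hd
    obtain ⟨k, rfl⟩ : ∃ j, k = j + 1 := ⟨k - 1, by omega⟩
    obtain ⟨x', hx', h⟩ := h
    obtain ⟨y', hy', hz'⟩ := hf k x y hz x' hx'
    exact ⟨y', hy', ih hv hp k x' y' (by omega) hz' h⟩
  | box a ih =>
    intro k x y hd hz h y' hy'
    simp only [depth] at hd
    obtain ⟨k, rfl⟩ : ∃ j, k = j + 1 := ⟨k - 1, by omega⟩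
    obtain ⟨x', hx', hz'⟩ := hb k x y hz y' hy'
    exact ih hv hp k x' y' (by omega) hz' (h x' hx')

theorem sat_iff {W : Type} (r : W → W → Prop) (V : ℕ → W → Prop) (a b : Fm) (w : W) :
    Sat r V (a.iff b) w ↔ (Sat r V a w ↔ Sat r V b w) := by
  simp only [Fm.iff, Sat, sat_neg]; tauto

theorem vars_phi0 : phi0.vars ⊆ ({0, 1, 2} : Finset ℕ) ∪ ∅ := by
  decide

/-- The word `s, p, q, s`. -/
def U4 : ℕ → Fin 4 → Bool
  | 0, w => decide (w = 1)
  | 1, w => decide (w = 2)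
  | 2, w => decide (w = 0 ∨ w = 3)
  | _, _ => false

/-- The word `s, q, ps, qs`. -/
def V4 : ℕ → Fin 4 → Bool
  | 0, w => decide (w = 2)
  | 1, w => decide (w = 1 ∨ w = 3)
  | 2, w => decide (w = 0 ∨ w = 2 ∨ w = 3)
  | _, _ => false

def Z4 (x y : Fin 4) : Bool :=
  decide ((x = 0 ∧ y = 0) ∨ (x = 1 ∧ y = 2) ∨ (x = 2 ∧ y = 1) ∨ (x = 2 ∧ y = 3) ∨
    (x = 3 ∧ y = 2) ∨ (x = 3 ∧ y = 3))

theorem grz3_not : ¬ LPP.{u} Grz3 := by
  intro h
  have hpsi : psi ∈ Grz3 := by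
    intro W _ _ V w
    exact sat_psi _ (fun _ x y _ _ => (le_total x y).imp id Or.inr) V w
  obtain ⟨α, hv, hp, hα⟩ := h {0, 1, 2} ∅ (by simp) phi0 vars_phi0 (mono_of_psi _ hpsi)
  have h1 := (sat_iff _ _ _ _ _).1 (hα (Fin 4) (fun n w => U4 n w = true) 0)
  have h2 := (sat_iff _ _ _ _ _).1 (hα (Fin 4) (fun n w => V4 n w = true) 0)
  have hu : Sat (fun x y : Fin 4 => x ≤ y) (fun n w => U4 n w = true) phi0 0 := by
    simp only [phi0, phi, Sat, Fm.neg]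
    decide
  have hw : ¬ Sat (fun x y : Fin 4 => x ≤ y) (fun n w => V4 n w = true) phi0 0 := by
    simp only [phi0, phi, Sat, Fm.neg]
    decide
  refine hw (h2.2 (preserve _ _ _ _ (fun _ x y => Z4 x y = true) ?_ ?_ ?_ {0, 1, 2} α
    (by simpa using hv) hp (depth α) 0 0 le_rfl (by decide) (h1.1 hu)))
  · intro _ x y hz n
    revert x y
    match n with
    | 0 => decide
    | 1 => decide
    | 2 => decide
    | n + 3 => simp [U4]
  · intro _
    decide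
  · intro _
    decide

/-- The word `s, p^N, q^N, s^N`, positions counted from the end. -/
def UN (N : ℕ) : ℕ → ℕ → Prop
  | 0, x => 2 * N ≤ x ∧ x < 3 * N
  | 1, x => N ≤ x ∧ x < 2 * N
  | 2, x => x = 3 * N ∨ x < N
  | _, _ => False

/-- The word `s, q^N, (ps)^N, (qs)^N`, positions counted from the end. -/
def VN (N : ℕ) : ℕ → ℕ → Prop
  | 0, x => N ≤ x ∧ x < 2 * N
  | 1, x => (2 * N ≤ x ∧ x < 3 * N) ∨ x < N
  | 2, x => x = 3 * N ∨ x < 2 * N
  | _, _ => False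

def ZN (N k x y : ℕ) : Prop :=
  (x = 3 * N ∧ y = 3 * N ∧ k < N) ∨
  (x < N ∧ y < N ∧ (x = y ∨ (k ≤ x ∧ k ≤ y))) ∨
  (x < N ∧ N ≤ y ∧ y < 2 * N ∧ k ≤ x) ∨
  (N ≤ x ∧ x < 2 * N ∧ y < N ∧ k ≤ y) ∨
  (2 * N ≤ x ∧ x < 3 * N ∧ N + k ≤ y ∧ y < 2 * N) ∨
  (N + k ≤ x ∧ x < 2 * N ∧ 2 * N ≤ y ∧ y < 3 * N)

theorem ZN1 {N k x y : ℕ} (h : x < N ∧ y < N ∧ (x = y ∨ (k ≤ x ∧ k ≤ y))) : ZN N k x y :=
  Or.inr (Or.inl h)

theorem ZN2 {N k x y : ℕ} (h : x < N ∧ N ≤ y ∧ y < 2 * N ∧ k ≤ x) : ZN N k x y :=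
  Or.inr (Or.inr (Or.inl h))

theorem ZN3 {N k x y : ℕ} (h : N ≤ x ∧ x < 2 * N ∧ y < N ∧ k ≤ y) : ZN N k x y :=
  Or.inr (Or.inr (Or.inr (Or.inl h)))

theorem ZN4 {N k x y : ℕ} (h : 2 * N ≤ x ∧ x < 3 * N ∧ N + k ≤ y ∧ y < 2 * N) : ZN N k x y :=
  Or.inr (Or.inr (Or.inr (Or.inr (Or.inl h))))

theorem ZN5 {N k x y : ℕ} (h : N + k ≤ x ∧ x < 2 * N ∧ 2 * N ≤ y ∧ y < 3 * N) : ZN N k x y :=
  Or.inr (Or.inr (Or.inr (Or.inr (Or.inr h))))

theorem ZN_forth (N k x y x' : ℕ) (h : ZN N (k + 1) x y) (hx : x' < x) :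
    ∃ y', y' < y ∧ ZN N k x' y' := by
  by_cases h3 : x' < N
  · by_cases h4 : x' < y
    · exact ⟨x', h4, ZN1 ⟨h3, h3, Or.inl rfl⟩⟩
    · refine ⟨y - 1, ?_, ZN1 ⟨h3, by omega, Or.inr ?_⟩⟩ <;>
        rcases h with h | h | h | h | h | h <;> omega
  · by_cases h2 : x' < 2 * N
    · by_cases h4 : N ≤ y
      · refine ⟨N - 1, ?_, ZN3 ?_⟩ <;>
          rcases h with h | h | h | h | h | h <;> omega
      · refine ⟨y - 1, ?_, ZN3 ?_⟩ <;>
          rcases h with h | h | h | h | h | h <;> omega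
    · by_cases h4 : 2 * N ≤ y
      · refine ⟨2 * N - 1, ?_, ZN4 ?_⟩ <;>
          rcases h with h | h | h | h | h | h <;> omega
      · refine ⟨y - 1, ?_, ZN4 ?_⟩ <;>
          rcases h with h | h | h | h | h | h <;> omega

theorem ZN_back (N k x y y' : ℕ) (h : ZN N (k + 1) x y) (hy : y' < y) :
    ∃ x', x' < x ∧ ZN N k x' y' := by
  by_cases h3 : y' < N
  · by_cases h4 : y' < x
    · exact ⟨y', h4, ZN1 ⟨h3, h3, Or.inl rfl⟩⟩
    · refine ⟨x - 1, ?_, ZN1 ⟨by omega, h3, Or.inr ?_⟩⟩ <;>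
        rcases h with h | h | h | h | h | h <;> omega
  · by_cases h2 : y' < 2 * N
    · by_cases h4 : N ≤ x
      · refine ⟨N - 1, ?_, ZN2 ?_⟩ <;>
          rcases h with h | h | h | h | h | h <;> omega
      · refine ⟨x - 1, ?_, ZN2 ?_⟩ <;>
          rcases h with h | h | h | h | h | h <;> omega
    · by_cases h4 : 2 * N ≤ x
      · refine ⟨2 * N - 1, ?_, ZN5 ?_⟩ <;>
          rcases h with h | h | h | h | h | h <;> omega
      · refine ⟨x - 1, ?_, ZN5 ?_⟩ <;>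
          rcases h with h | h | h | h | h | h <;> omega

theorem ZN_at (N k x y : ℕ) (h : ZN N k x y) (n : ℕ) : UN N n x → VN N n y := by
  match n with
  | 0 => simp only [UN, VN]; rcases h with h | h | h | h | h | h <;> omega
  | 1 => simp only [UN, VN]; rcases h with h | h | h | h | h | h <;> omega
  | 2 => simp only [UN, VN]; rcases h with h | h | h | h | h | h <;> omega
  | n + 3 => simp [UN]

theorem gl3_not : ¬ LPP.{u} GL3 := by
  intro h
  have hpsi : psi ∈ GL3 := by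
    intro W _ _ V w
    exact sat_psi _ (fun _ x y _ _ => lt_trichotomy x y) V w
  obtain ⟨α, hv, hp, hα⟩ := h {0, 1, 2} ∅ (by simp) phi0 vars_phi0 (mono_of_psi _ hpsi)
  obtain ⟨N, hN⟩ : ∃ N, depth α < N := ⟨_, Nat.lt_succ_self _⟩
  let W := (Fin (3 * N + 1))ᵒᵈ
  let f : W → ℕ := fun w => (OrderDual.ofDual w).val
  let g : (m : ℕ) → m < 3 * N + 1 → W := fun m hm => OrderDual.toDual ⟨m, hm⟩
  have hfg : ∀ m hm, f (g m hm) = m := fun _ _ => rfl
  have hlt : ∀ x y : W, x < y ↔ f y < f x := fun _ _ => Iff.rfl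
  have hf : ∀ x : W, f x < 3 * N + 1 := fun x => (OrderDual.ofDual x).isLt
  let w0 : W := g (3 * N) (by omega)
  have hw0 : f w0 = 3 * N := rfl
  have h1 := (sat_iff _ _ _ _ _).1 (hα W (fun n w => UN N n (f w)) w0)
  have h2 := (sat_iff _ _ _ _ _).1 (hα W (fun n w => VN N n (f w)) w0)
  have hu : Sat (fun x y : W => x < y) (fun n w => UN N n (f w)) phi0 w0 := by
    simp only [phi0, phi, Sat, Fm.neg, UN, hlt, hw0]
    right
    refine ⟨⟨g (2 * N) (by omega), ?_⟩, ?_⟩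
    · simp only [hfg]; omega
    · intro v hv
      by_cases h3 : f v < N
      · omega
      · by_cases h4 : f v < 2 * N
        · right; right
          refine ⟨by omega, fun z hz => by omega⟩
        · omega
  have hw : ¬ Sat (fun x y : W => x < y) (fun n w => VN N n (f w)) phi0 w0 := by
    simp only [phi0, phi, Sat, Fm.neg, VN, hlt, hw0]
    rintro (⟨x, hx, h0, y, hy, h1, z, hz, h2⟩ | ⟨_, hb⟩)
    · omega
    · have := hb (g (2 * N) (by omega)) (by simp only [hfg]; omega)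
      simp only [hfg] at this
      rcases this with h | h | ⟨_, h⟩
      · omega
      · omega
      · have := h (g N (by omega)) (by simp only [hfg]; omega)
        simp only [hfg] at this
        omega
  refine hw (h2.2 (preserve _ _ _ _ (fun k x y => ZN N k (f x) (f y)) ?_ ?_ ?_ {0, 1, 2} α
    (by simpa using hv) hp (depth α) w0 w0 le_rfl ?_ (h1.1 hu)))
  · intro k x y hz n
    exact ZN_at N k _ _ hz n
  · intro k x y hz x' hx'
    obtain ⟨y', hy', hz'⟩ := ZN_forth N k _ _ (f x') hz ((hlt _ _).1 hx')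
    exact ⟨g y' (by have := hf y; omega), (hlt _ _).2 hy', hz'⟩
  · intro k x y hz y' hy'
    obtain ⟨x', hx', hz'⟩ := ZN_back N k _ _ (f y') hz ((hlt _ _).1 hy')
    exact ⟨g x' (by have := hf x; omega), (hlt _ _).2 hx', hz'⟩
  · exact Or.inl ⟨rfl, rfl, hN⟩

end Pool.Agent.Lib.MP_4f615a_lc
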